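import Pool.Agent.Lib.MP_acafa7_al.F.IfaceG

/-! NULH: `NulP` gives a null-homotopy (helper19). -/

set_option autoImplicit false

namespace MSG.F19

open MSG

variable {V : Type} {G : SimpleGraph V} {S : Set V}

theorem one {l l' : List V} (h : StpA G S (fun _ _ _ => (0 : ℤ)) l l' 0) : HomN G S l l' := by
  have h1 := HomA.step h (HomA.refl l')
  rwa [add_zero] at h1

theorem ofStp {w w' : List V} {e : ZMod 2} (h : Stp G S (fun _ _ _ => 0) w w' e) :
    HomN G S w w' := by
  cases h with
  | ins u v x y hxy hy => exact one (StpA.ins u v x y hxy hy)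
  | del u v x y hxy => exact one (StpA.del u v x y hxy)
  | exp u v x y z h1 h2 h3 h4 =>
    apply one
    have := StpA.exp (S := S) (ω := fun _ _ _ => (0 : ℤ)) u v x y z h1 h2 h3 h4
    rwa [neg_zero] at this
  | con u v x y z h1 h2 h3 => exact one (StpA.con u v x y z h1 h2 h3)

/-- NULH -/
theorem nulh_st (hA : HAlgStatement) : NulHStatement := by
  intro V G S x w e n h
  obtain ⟨tr, ctx, mem, -, -, isw, -⟩ := hA V ℤ G S (fun _ _ _ => (0 : ℤ))
  have trans' : ∀ {l l' l'' : List V}, HomN G S l l' → HomN G S l' l'' → HomN G S l l'' := by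
    intro l l' l'' h1 h2
    have h3 := tr _ _ _ _ _ h1 h2
    rwa [add_zero] at h3
  induction h generalizing x with
  | base a b hab =>
    intro hS hw
    have h1 : a = x := by
      have := hw.first
      simpa using this
    subst h1
    exact one (StpA.del [] [] a b hab)
  | rot a b l e n hl h ih =>
    intro hS hw
    have h1 : a = x := by
      have := hw.first
      simpa using this
    subst h1
    have hab : G.Adj a b := by
      have := hw.chain
      rw [List.isChain_cons_cons] at this
      exact this.1
    have hne : l ≠ [] := by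
      rintro rfl
      have h2 : b = a := by simpa using hl
      exact G.loopless.irrefl a (by rw [h2] at hab; exact hab)
    obtain ⟨l0, hl0⟩ : ∃ l0, l = l0 ++ [a] := by
      refine ⟨l.dropLast, ?_⟩
      have h2 := List.dropLast_append_getLast hne
      have h3 : l.getLast hne = a := by
        rw [List.getLast?_cons_cons, List.getLast?_cons, List.getLast?_eq_getLast_of_ne_nil hne] at hl
        simpa using hl
      rw [h3] at h2
      exact h2.symm
    have hbS : b ∈ S := hS b (by simp)
    have hbl : ∀ v ∈ b :: (l ++ [b]), v ∈ S := by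
      intro v hv
      apply hS
      simp only [List.mem_cons, List.mem_append, List.not_mem_nil, or_false] at hv ⊢
      tauto
    have hw2 : IsW G b b (b :: (l ++ [b])) := by
      refine ⟨?_, by simp, ?_⟩
      swap
      · change ((b :: l) ++ [b]).getLast? = some b
        exact List.getLast?_concat ..
      have h2 := hw.chain
      rw [List.isChain_cons_cons] at h2
      have h3 : b :: (l ++ [b]) = (b :: l) ++ [b] := by simp
      rw [h3, List.isChain_append]
      refine ⟨h2.2, by simp, ?_⟩
      intro u hu v hv
      have h4 : v = b := by simpa using hv.symm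
      have h5 : u = a := by
        rw [hl0] at hu
        have : (b :: (l0 ++ [a])).getLast? = some a := by
          rw [List.getLast?_cons]
          simp
        rw [this] at hu
        simpa using hu.symm
      rw [h4, h5]
      exact hab
    have ih' := ih b hbl hw2
    have s1 : HomN G S (a :: b :: l) ([a] ++ (b :: (l ++ [b])) ++ [a]) := by
      have h2 := StpA.ins (G := G) (S := S) (ω := fun _ _ _ => (0 : ℤ)) (a :: b :: l0) [] a b hab hbS
      have e1 : (a :: b :: l0) ++ a :: [] = a :: b :: l := by rw [hl0]; simp
      have e2 : (a :: b :: l0) ++ a :: b :: a :: [] = [a] ++ (b :: (l ++ [b])) ++ [a] := by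
        rw [hl0]; simp
      rw [e1, e2] at h2
      exact one h2
    have s2 : HomN G S ([a] ++ (b :: (l ++ [b])) ++ [a]) ([a] ++ [b] ++ [a]) := ctx _ _ _ _ _ ih'
    have s3 : HomN G S ([a] ++ [b] ++ [a]) [a] := one (StpA.del [] [] a b hab)
    exact trans' s1 (trans' s2 s3)
  | stp w w' e e' n hs h3 h ih =>
    intro hS hw
    have h1 := ofStp hs
    exact trans' h1 (ih x (mem _ _ _ hS h1).1 (isw _ _ _ _ _ h1 hw))

end MSG.F19
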